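import Mathlib

/-!
# Kac's divisibility fails over every algebraically closed field of positive characteristic

Let `p` be a prime and `k` an algebraically closed field of characteristic `p`. The matrices of size
`p + 1` of the form `(∑ₘ aₘ Nᵐ) diag (tᵖ, …, t, 1)` with `aₘ = aᵐ / m!` for `m < p`, where `N` is
the nilpotent Jordan block, form a closed connected solvable subgroup `G` of `GL (p + 1)` of
dimension three: `t`, `a` and `aₚ` are free. Its Lie algebra has a basis `h, N, z = Nᵖ` with
`[h, N] = N`, `z` central, `N^[p] = z`. The form `χ = z* - N*` has a centraliser of dimension one, but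
it is the `p`-character of a one-dimensional module, so that `p ^ ((3 - 1) / 2)` does not divide
the dimension of this simple module.
-/

set_option autoImplicit false

namespace Pool.Agent.Results.MP_f85ae1_al.AllPrimes

/-- The value of the polynomial `f` in the entries of a matrix at the matrix `g`. -/
noncomputable def ev {k : Type} [Field k] {n : ℕ} (g : Matrix (Fin n) (Fin n) k)
    (f : MvPolynomial (Fin n × Fin n) k) : k :=
  MvPolynomial.eval (fun ij : Fin n × Fin n => g ij.1 ij.2) f

/-- The derivative of `f` at the identity matrix in the direction `X`. -/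
noncomputable def dirDeriv {k : Type} [Field k] {n : ℕ} (X : Matrix (Fin n) (Fin n) k)
    (f : MvPolynomial (Fin n × Fin n) k) : k :=
  ∑ ij : Fin n × Fin n, ev 1 (MvPolynomial.pderiv ij f) * X ij.1 ij.2

/-- A subgroup of `GL n` is (Zariski) closed: it is the set of zeros in `GL n` of a set of
polynomials. -/
def IsClosedSubgroup {k : Type} [Field k] {n : ℕ} (S : Subgroup (Matrix.GeneralLinearGroup (Fin n) k)) :
    Prop :=
  ∃ F : Set (MvPolynomial (Fin n × Fin n) k), ∀ g : Matrix.GeneralLinearGroup (Fin n) k,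
    g ∈ S ↔ ∀ f ∈ F, ev (g : Matrix (Fin n) (Fin n) k) f = 0

/-- The Lie algebra of the closed subgroup `S` of `GL n`: the tangent space at the identity. -/
noncomputable def lieAlg {k : Type} [Field k] {n : ℕ}
    (S : Subgroup (Matrix.GeneralLinearGroup (Fin n) k)) :
    Submodule k (Matrix (Fin n) (Fin n) k) where
  carrier := {X | ∀ f : MvPolynomial (Fin n × Fin n) k,
    (∀ g ∈ S, ev (g : Matrix (Fin n) (Fin n) k) f = 0) → dirDeriv X f = 0}
  add_mem' := by
    intro X Y hX hY f hf
    have h1 := hX f hf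
    have h2 := hY f hf
    unfold dirDeriv at *
    simp only [Matrix.add_apply, mul_add, Finset.sum_add_distrib, h1, h2, add_zero]
  zero_mem' := by intro f _; simp [dirDeriv]
  smul_mem' := by
    intro c X hX f hf
    have h1 := hX f hf
    unfold dirDeriv at *
    simp only [Matrix.smul_apply, smul_eq_mul, mul_left_comm _ c, ← Finset.mul_sum, h1, mul_zero]

/-- The centraliser of the linear form `χ` in the Lie algebra of `S`. -/
noncomputable def centraliser {k : Type} [Field k] {n : ℕ}
    (S : Subgroup (Matrix.GeneralLinearGroup (Fin n) k)) (χ : Matrix (Fin n) (Fin n) k →ₗ[k] k) :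
    Submodule k (Matrix (Fin n) (Fin n) k) where
  carrier := {X | X ∈ lieAlg S ∧ ∀ Y ∈ lieAlg S, χ (X * Y - Y * X) = 0}
  add_mem' := by
    rintro X Y ⟨h1, h2⟩ ⟨h3, h4⟩
    refine ⟨add_mem h1 h3, fun Z hZ => ?_⟩
    rw [show (X + Y) * Z - Z * (X + Y) = (X * Z - Z * X) + (Y * Z - Z * Y) by noncomm_ring,
      map_add, h2 Z hZ, h4 Z hZ, add_zero]
  zero_mem' := ⟨zero_mem _, fun Z _ => by simp⟩
  smul_mem' := by
    rintro c X ⟨h1, h2⟩
    refine ⟨Submodule.smul_mem _ c h1, fun Z hZ => ?_⟩
    rw [show (c • X) * Z - Z * (c • X) = c • (X * Z - Z * X) by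
      rw [smul_mul_assoc, mul_smul_comm, smul_sub], map_smul, h2 Z hZ, smul_zero]

/-- The restriction of `ρ` to the Lie algebra of `S` makes `M` a simple module over the reduced
enveloping algebra with `p`-character `χ`. -/
structure IsSimpleModule {k : Type} [Field k] {n : ℕ} (p : ℕ)
    (S : Subgroup (Matrix.GeneralLinearGroup (Fin n) k)) (χ : Matrix (Fin n) (Fin n) k →ₗ[k] k)
    (M : Type) [AddCommGroup M] [Module k M]
    (ρ : Matrix (Fin n) (Fin n) k →ₗ[k] Module.End k M) : Prop where
  bracket : ∀ X ∈ lieAlg S, ∀ Y ∈ lieAlg S, ρ (X * Y - Y * X) = ρ X * ρ Y - ρ Y * ρ X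
  pmap : ∀ X ∈ lieAlg S, ρ X ^ p - ρ (X ^ p) = (χ X) ^ p • (1 : Module.End k M)
  nontrivial : Nontrivial M
  simple : ∀ N : Submodule k M, (∀ X ∈ lieAlg S, ∀ v ∈ N, ρ X v ∈ N) → N = ⊥ ∨ N = ⊤

section deriv

variable {k : Type} [Field k] {n : ℕ}

open MvPolynomial in
lemma dd_X (X : Matrix (Fin n) (Fin n) k) (i j : Fin n) :
    dirDeriv X (MvPolynomial.X (i, j)) = X i j := by
  classical
  unfold dirDeriv ev
  rw [Finset.sum_eq_single (i, j)]
  · simp
  · intro b _ hb
    rw [pderiv_X_of_ne (Ne.symm hb)]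
    simp
  · simp

lemma dd_C (X : Matrix (Fin n) (Fin n) k) (c : k) : dirDeriv X (MvPolynomial.C c) = 0 := by
  simp [dirDeriv, ev]

lemma dd_sub (X : Matrix (Fin n) (Fin n) k) (f g : MvPolynomial (Fin n × Fin n) k) :
    dirDeriv X (f - g) = dirDeriv X f - dirDeriv X g := by
  simp [dirDeriv, ev, sub_mul, Finset.sum_sub_distrib]

lemma dd_mul (X : Matrix (Fin n) (Fin n) k) (f g : MvPolynomial (Fin n × Fin n) k) :
    dirDeriv X (f * g) = ev 1 f * dirDeriv X g + dirDeriv X f * ev 1 g := by
  simp only [dirDeriv, ev, Derivation.leibniz, smul_eq_mul, map_add, map_mul, add_mul,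
    Finset.sum_add_distrib, Finset.mul_sum, Finset.sum_mul]
  congr 1
  · exact Finset.sum_congr rfl fun _ _ => by ring
  · exact Finset.sum_congr rfl fun _ _ => by ring

lemma dd_pow (X : Matrix (Fin n) (Fin n) k) (f : MvPolynomial (Fin n × Fin n) k) (m : ℕ) :
    dirDeriv X (f ^ m) = m * ev 1 f ^ (m - 1) * dirDeriv X f := by
  induction m with
  | zero =>
    rw [pow_zero, show (1 : MvPolynomial (Fin n × Fin n) k) = MvPolynomial.C 1 by simp, dd_C]
    simp
  | succ m ih =>
    rw [pow_succ, dd_mul, ih, show ev 1 (f ^ m) = ev 1 f ^ m by simp [ev]]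
    rcases m with _ | m
    · simp
    · simp only [Nat.add_sub_cancel]
      push_cast
      rw [pow_succ (ev 1 f) m]
      ring

lemma chain {σ : Type} [Fintype σ] [DecidableEq σ] (c : σ → Polynomial k)
    (f : MvPolynomial σ k) :
    Polynomial.derivative (MvPolynomial.aeval c f) =
      ∑ i, MvPolynomial.aeval c (MvPolynomial.pderiv i f) * Polynomial.derivative (c i) := by
  induction f using MvPolynomial.induction_on with
  | C a => simp
  | add f g hf hg => simp [hf, hg, add_mul, Finset.sum_add_distrib]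
  | mul_X f j hf =>
    simp only [map_mul, MvPolynomial.aeval_X, Polynomial.derivative_mul, hf, Derivation.leibniz,
      smul_eq_mul, map_add, add_mul, Finset.sum_add_distrib, MvPolynomial.pderiv_X]
    rw [add_comm]
    congr 1
    · rw [Finset.sum_eq_single j]
      · simp
      · intro i _ hij
        simp [hij.symm]
      · simp
    · rw [Finset.sum_mul]
      refine Finset.sum_congr rfl fun i _ => by ring

lemma eval_aeval {σ : Type} (c : σ → Polynomial k) (f : MvPolynomial σ k) (s : k) :
    Polynomial.eval s (MvPolynomial.aeval c f) = MvPolynomial.eval (fun i => (c i).eval s) f := by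
  induction f using MvPolynomial.induction_on with
  | C a => simp
  | add f g hf hg => simp [hf, hg]
  | mul_X f j hf => simp [hf]

/-- tangent vectors of curves -/
lemma tangent [Infinite k] {σ : Type} [Fintype σ] [DecidableEq σ]
    (c : σ → Polynomial k) (f : MvPolynomial σ k) (q : Polynomial k) (hq : q ≠ 0)
    (h : ∀ s : k, q.eval s ≠ 0 → MvPolynomial.eval (fun i => (c i).eval s) f = 0) :
    ∑ i, MvPolynomial.eval (fun i => (c i).eval 0) (MvPolynomial.pderiv i f) *
      (Polynomial.derivative (c i)).eval 0 = 0 := by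
  have h0 : MvPolynomial.aeval c f = 0 := by
    have h1 : q * MvPolynomial.aeval c f = 0 := by
      apply Polynomial.funext
      intro s
      rw [Polynomial.eval_mul, eval_aeval, Polynomial.eval_zero]
      by_cases hs : q.eval s = 0
      · rw [hs, zero_mul]
      · rw [h s hs, mul_zero]
    exact (mul_eq_zero.1 h1).resolve_left hq
  have h1 := congrArg (Polynomial.eval 0) (chain c f)
  rw [h0] at h1
  simp only [map_zero, Polynomial.eval_zero, Polynomial.eval_finsetSum, Polynomial.eval_mul,
    eval_aeval] at h1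
  exact h1.symm

end deriv

section group

variable {k : Type} [Field k] (p : ℕ)

open PowerSeries in
/-- The matrix `(∑ₘ Aₘ Nᵐ) diag (tᵖ, …, t, 1)`. -/
noncomputable def T (t : k) (A : PowerSeries k) : Matrix (Fin (p + 1)) (Fin (p + 1)) k :=
  Matrix.of fun i j => if i.val ≤ j.val then coeff (j.val - i.val) A * t ^ (p - j.val) else 0

/-- The coefficients of `A` below `p` are those of `exp (a X)`. -/
def IsExp (A : PowerSeries k) (a : k) : Prop :=
  ∀ m < p, (m.factorial : k) * PowerSeries.coeff m A = a ^ m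

variable {p}

lemma T_mul (t s : k) (A B : PowerSeries k) :
    T p t A * T p s B = T p (t * s) (A * PowerSeries.rescale t B) := by
  ext i j
  rw [Matrix.mul_apply]
  simp only [T, Matrix.of_apply]
  have h1 := Fin.sum_univ_eq_sum_range (fun l : ℕ =>
    (if i.val ≤ l then PowerSeries.coeff (l - i.val) A * t ^ (p - l) else 0) *
      (if l ≤ j.val then PowerSeries.coeff (j.val - l) B * s ^ (p - j.val) else 0)) (p + 1)
  rw [h1]
  have hj := j.isLt
  by_cases hij : i.val ≤ j.val
  · rw [if_pos hij, ← Finset.sum_subset (s₁ := Finset.Ico i.val (j.val + 1)),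
      Finset.sum_Ico_eq_sum_range, PowerSeries.coeff_mul,
      Finset.Nat.sum_antidiagonal_eq_sum_range_succ (fun u v => PowerSeries.coeff u A *
        PowerSeries.coeff v (PowerSeries.rescale t B)), Finset.sum_mul,
      show j.val + 1 - i.val = (j.val - i.val).succ by omega]
    · refine Finset.sum_congr rfl fun u hu => ?_
      rw [Finset.mem_range] at hu
      rw [if_pos (by omega), if_pos (by omega), PowerSeries.coeff_rescale,
        show i.val + u - i.val = u by omega, show j.val - (i.val + u) = j.val - i.val - u by omega,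
        show p - (i.val + u) = (p - j.val) + (j.val - i.val - u) by omega, pow_add, mul_pow]
      ring
    · intro l hl
      rw [Finset.mem_Ico] at hl
      rw [Finset.mem_range]
      omega
    · intro l _ hl
      rw [Finset.mem_Ico] at hl
      by_cases h : i.val ≤ l
      · rw [if_neg (show ¬ l ≤ j.val by omega), mul_zero]
      · rw [if_neg h, zero_mul]
  · rw [if_neg hij]
    refine Finset.sum_eq_zero fun l _ => ?_
    by_cases h : i.val ≤ l
    · rw [if_neg (show ¬ l ≤ j.val by omega), mul_zero]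
    · rw [if_neg h, zero_mul]

lemma T_one : T p (1 : k) 1 = 1 := by
  ext i j
  simp only [T, Matrix.of_apply, one_pow, mul_one, PowerSeries.coeff_one, Matrix.one_apply,
    Fin.ext_iff]
  split_ifs <;> first | rfl | omega

lemma IsExp.mul {A B : PowerSeries k} {a b : k} (hA : IsExp p A a) (hB : IsExp p B b) :
    IsExp p (A * B) (a + b) := by
  intro m hm
  rw [PowerSeries.coeff_mul, Finset.mul_sum, (Commute.all a b).add_pow']
  refine Finset.sum_congr rfl fun x hx => ?_
  rw [Finset.HasAntidiagonal.mem_antidiagonal] at hx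
  rw [← hA x.1 (by omega), ← hB x.2 (by omega), ← hx,
    ← Nat.add_choose_mul_factorial_mul_factorial x.1 x.2, nsmul_eq_mul, Nat.choose_symm_add]
  push_cast
  ring

lemma IsExp.rescale {B : PowerSeries k} {b : k} (t : k) (hB : IsExp p B b) :
    IsExp p (PowerSeries.rescale t B) (t * b) := by
  intro m hm
  rw [PowerSeries.coeff_rescale, mul_pow, ← hB m hm]
  ring

lemma isExp_one : IsExp p (1 : PowerSeries k) 0 := by
  intro m _
  rw [PowerSeries.coeff_one]
  rcases m with _ | m <;> simp

lemma fact_ne [CharP k p] (hp : p.Prime) {m : ℕ} (hm : m < p) : (m.factorial : k) ≠ 0 := by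
  intro h
  rw [CharP.cast_eq_zero_iff k p, hp.dvd_factorial] at h
  omega

lemma IsExp.const {A : PowerSeries k} {a : k} (hp : p.Prime) (hA : IsExp p A a) :
    PowerSeries.coeff 0 A = 1 := by
  simpa using hA 0 hp.pos

lemma IsExp.inv [CharP k p] (hp : p.Prime) {A : PowerSeries k} {a : k} (hA : IsExp p A a) :
    IsExp p A⁻¹ (-a) ∧ A * A⁻¹ = 1 := by
  have h1 : PowerSeries.constantCoeff A ≠ 0 := by
    rw [← PowerSeries.coeff_zero_eq_constantCoeff_apply, hA.const hp]
    exact one_ne_zero
  have h2 := PowerSeries.mul_inv_cancel A h1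
  refine ⟨?_, h2⟩
  set B : PowerSeries k := PowerSeries.mk fun m => (m.factorial : k)⁻¹ * (-a) ^ m
  have hB : IsExp p B (-a) := by
    intro m hm
    rw [PowerSeries.coeff_mk, mul_inv_cancel_left₀ (fact_ne hp hm)]
  have h3 : PowerSeries.X ^ p ∣ 1 - A * B := by
    rw [PowerSeries.X_pow_dvd_iff]
    intro m hm
    have := (hA.mul hB) m hm
    have h4 := isExp_one (k := k) (p := p) m hm
    rw [add_neg_cancel, ← h4] at this
    rw [map_sub, sub_eq_zero]
    exact (mul_left_cancel₀ (fact_ne hp hm) this).symm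
  have h5 : A⁻¹ * (1 - A * B) = A⁻¹ - B := by
    rw [mul_sub, mul_one, ← mul_assoc, mul_comm A⁻¹ A, h2, one_mul]
  have h6 : PowerSeries.X ^ p ∣ A⁻¹ - B := h5 ▸ Dvd.dvd.mul_left h3 _
  rw [PowerSeries.X_pow_dvd_iff] at h6
  intro m hm
  have h7 := h6 m hm
  rw [map_sub, sub_eq_zero] at h7
  rw [h7]
  exact hB m hm

variable (p) in
/-- The group, as a set of matrices. -/
def Good (g : Matrix (Fin (p + 1)) (Fin (p + 1)) k) : Prop :=
  ∃ (t : k) (A : PowerSeries k) (a : k), t ≠ 0 ∧ IsExp p A a ∧ g = T p t A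

/-- The group. -/
noncomputable def S [CharP k p] (hp : p.Prime) : Subgroup (Matrix.GeneralLinearGroup (Fin (p + 1)) k) where
  carrier := {g | Good p (g : Matrix (Fin (p + 1)) (Fin (p + 1)) k)}
  mul_mem' := by
    rintro g h ⟨t, A, a, ht, hA, hg⟩ ⟨s, B, b, hs, hB, hh⟩
    refine ⟨t * s, A * PowerSeries.rescale t B, a + t * b, mul_ne_zero ht hs, hA.mul (hB.rescale t), ?_⟩
    rw [Units.val_mul, hg, hh, T_mul]
  one_mem' := ⟨1, 1, 0, one_ne_zero, isExp_one, by rw [T_one]; rfl⟩
  inv_mem' := by
    rintro g ⟨t, A, a, ht, hA, hg⟩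
    obtain ⟨h1, h2⟩ := hA.inv hp
    refine ⟨t⁻¹, PowerSeries.rescale t⁻¹ A⁻¹, t⁻¹ * -a, inv_ne_zero ht, h1.rescale _, ?_⟩
    have h3 : (g : Matrix (Fin (p + 1)) (Fin (p + 1)) k) * T p t⁻¹ (PowerSeries.rescale t⁻¹ A⁻¹) = 1 := by
      rw [hg, T_mul, PowerSeries.rescale_rescale, inv_mul_cancel₀ ht, mul_inv_cancel₀ ht,
        PowerSeries.rescale_one, RingHom.id_apply, h2, T_one]
    calc ((g⁻¹ : Matrix.GeneralLinearGroup (Fin (p + 1)) k) : Matrix (Fin (p + 1)) (Fin (p + 1)) k)
        = (g⁻¹ : Matrix.GeneralLinearGroup (Fin (p + 1)) k) *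
          ((g : Matrix (Fin (p + 1)) (Fin (p + 1)) k) * T p t⁻¹ (PowerSeries.rescale t⁻¹ A⁻¹)) := by
          rw [h3, mul_one]
      _ = T p t⁻¹ (PowerSeries.rescale t⁻¹ A⁻¹) := by
          rw [← mul_assoc, ← Units.val_mul, inv_mul_cancel, Units.val_one, one_mul]

/-! ### Equations of the group -/

variable (p) in
/-- The equations of the group. -/
noncomputable def eqs : Set (MvPolynomial (Fin (p + 1) × Fin (p + 1)) k) :=
  {f | (∃ i j : Fin (p + 1), j.val < i.val ∧ f = MvPolynomial.X (i, j)) ∨
    f = MvPolynomial.X (Fin.last p, Fin.last p) - MvPolynomial.C 1 ∨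
    (∃ i j : Fin (p + 1), i.val ≤ j.val ∧ f = MvPolynomial.X (i, j) -
      MvPolynomial.X (⟨p - (j.val - i.val), by omega⟩, Fin.last p) *
        MvPolynomial.X (⟨p - 1, by omega⟩, ⟨p - 1, by omega⟩) ^ (p - j.val)) ∨
    ∃ m : ℕ, m < p ∧ f = MvPolynomial.C (m.factorial : k) *
      MvPolynomial.X (⟨p - m, by omega⟩, Fin.last p) -
        MvPolynomial.X (⟨p - 1, by omega⟩, Fin.last p) ^ m}

lemma eqs_of_good (hp : p.Prime) {g : Matrix (Fin (p + 1)) (Fin (p + 1)) k} (hg : Good p g)
    (f : MvPolynomial (Fin (p + 1) × Fin (p + 1)) k) (hf : f ∈ eqs p) : ev g f = 0 := by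
  obtain ⟨t, A, a, ht, hA, rfl⟩ := hg
  have hp1 := hp.one_lt
  have hA0 := hA.const hp
  have hA1 : PowerSeries.coeff 1 A = a := by simpa using hA 1 hp1
  rcases hf with ⟨i, j, hij, rfl⟩ | rfl | ⟨i, j, hij, rfl⟩ | ⟨m, hm, rfl⟩
  · simp only [ev, MvPolynomial.eval_X, T, Matrix.of_apply]
    rw [if_neg (by omega)]
  · simp only [ev, MvPolynomial.eval_X, T, Matrix.of_apply, map_sub, MvPolynomial.eval_C,
      Fin.val_last]
    rw [if_pos le_rfl, Nat.sub_self, hA0]
    simp
  · simp only [ev, MvPolynomial.eval_X, T, Matrix.of_apply, map_sub, map_mul, map_pow,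
      Fin.val_last]
    have hj := j.isLt
    rw [if_pos hij, if_pos (by omega), if_pos le_rfl, Nat.sub_self, Nat.sub_self, hA0, pow_zero,
      show p - (p - (j.val - i.val)) = j.val - i.val by omega, show p - (p - 1) = 1 by omega]
    ring
  · simp only [ev, MvPolynomial.eval_X, T, Matrix.of_apply, map_sub, map_mul, map_pow,
      MvPolynomial.eval_C, Fin.val_last]
    rw [if_pos (by omega), if_pos (by omega), show p - (p - m) = m by omega,
      show p - (p - 1) = 1 by omega, Nat.sub_self, pow_zero, mul_one, mul_one, hA1, hA m hm,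
      sub_self]

lemma good_of_eqs (hp : p.Prime) (g : Matrix.GeneralLinearGroup (Fin (p + 1)) k)
    (h : ∀ f ∈ eqs p, ev (g : Matrix (Fin (p + 1)) (Fin (p + 1)) k) f = 0) :
    Good p (g : Matrix (Fin (p + 1)) (Fin (p + 1)) k) := by
  have hp1 := hp.one_lt
  set G := (g : Matrix (Fin (p + 1)) (Fin (p + 1)) k) with hG
  have r1 : ∀ i j : Fin (p + 1), j.val < i.val → G i j = 0 := fun i j hij => by
    simpa [ev] using h _ (Or.inl ⟨i, j, hij, rfl⟩)
  have r2 : G (Fin.last p) (Fin.last p) = 1 := by
    have := h _ (Or.inr (Or.inl rfl))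
    simpa [ev, sub_eq_zero] using this
  have r3 : ∀ i j : Fin (p + 1), i.val ≤ j.val → G i j =
      G ⟨p - (j.val - i.val), by omega⟩ (Fin.last p) *
        G ⟨p - 1, by omega⟩ ⟨p - 1, by omega⟩ ^ (p - j.val) := fun i j hij => by
    have := h _ (Or.inr (Or.inr (Or.inl ⟨i, j, hij, rfl⟩)))
    simpa [ev, sub_eq_zero] using this
  have r4 : ∀ m : ℕ, ∀ hm : m < p, (m.factorial : k) * G ⟨p - m, by omega⟩ (Fin.last p) =
      G ⟨p - 1, by omega⟩ (Fin.last p) ^ m := fun m hm => by
    have := h _ (Or.inr (Or.inr (Or.inr ⟨m, hm, rfl⟩)))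
    simpa [ev, sub_eq_zero] using this
  refine ⟨G ⟨p - 1, by omega⟩ ⟨p - 1, by omega⟩,
    PowerSeries.mk fun m => G ⟨p - m, by omega⟩ (Fin.last p),
    G ⟨p - 1, by omega⟩ (Fin.last p), ?_, ?_, ?_⟩
  · intro h0
    have h1 : ∀ l : Fin (p + 1), G l 0 = 0 := by
      intro l
      rcases Nat.eq_zero_or_pos l.val with hl | hl
      · rw [r3 l 0 (by simp [hl]), h0]
        simp [hp.ne_zero]
      · exact r1 l 0 (by simpa using hl)
    have h2 : ((g⁻¹ : Matrix.GeneralLinearGroup (Fin (p + 1)) k) :
        Matrix (Fin (p + 1)) (Fin (p + 1)) k) * G = 1 := by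
      rw [hG, ← Units.val_mul, inv_mul_cancel, Units.val_one]
    have h3 := congrFun (congrFun h2 0) 0
    rw [Matrix.mul_apply] at h3
    simp [h1] at h3
  · intro m hm
    rw [PowerSeries.coeff_mk]
    exact r4 m hm
  · ext i j
    simp only [T, Matrix.of_apply, PowerSeries.coeff_mk]
    split_ifs with hij
    · exact r3 i j hij
    · exact r1 i j (by omega)

lemma isClosed_S [CharP k p] (hp : p.Prime) : IsClosedSubgroup (S (k := k) hp) :=
  ⟨eqs p, fun g => ⟨fun hg f hf => eqs_of_good hp hg f hf, fun h => good_of_eqs hp g h⟩⟩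

/-! ### The Lie algebra -/

variable (p) in
/-- The general element of the Lie algebra. -/
def L (x y c : k) : Matrix (Fin (p + 1)) (Fin (p + 1)) k :=
  Matrix.of fun i j => if i.val = j.val then ((p - j.val : ℕ) : k) * x else
    if i.val + 1 = j.val then y else if i.val + p = j.val then c else 0

lemma mem_upper [CharP k p] (hp : p.Prime) {X : Matrix (Fin (p + 1)) (Fin (p + 1)) k}
    (hX : X ∈ lieAlg (S (k := k) hp)) : ∃ x y c, X = L p x y c := by
  have hp1 := hp.one_lt
  have h : ∀ f ∈ eqs p, dirDeriv X f = 0 := fun f hf => hX f fun g hg => eqs_of_good hp hg f hf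
  have r1 : ∀ i j : Fin (p + 1), j.val < i.val → X i j = 0 := fun i j hij => by
    have := h _ (Or.inl ⟨i, j, hij, rfl⟩)
    rwa [dd_X] at this
  have r2 : X (Fin.last p) (Fin.last p) = 0 := by
    have := h _ (Or.inr (Or.inl rfl))
    rwa [dd_sub, dd_X, dd_C, sub_zero] at this
  have r3 : ∀ i j : Fin (p + 1), i.val < j.val → X i j =
      X ⟨p - (j.val - i.val), by omega⟩ (Fin.last p) := fun i j hij => by
    have := h _ (Or.inr (Or.inr (Or.inl ⟨i, j, hij.le, rfl⟩)))
    rw [dd_sub, dd_X, dd_mul, dd_pow, dd_X, dd_X] at this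
    have e1 : ev (1 : Matrix (Fin (p + 1)) (Fin (p + 1)) k)
        (MvPolynomial.X (⟨p - (j.val - i.val), by omega⟩, Fin.last p)) = 0 := by
      simp only [ev, MvPolynomial.eval_X]
      rw [Matrix.one_apply_ne]
      intro he
      have := congrArg Fin.val he
      simp only [Fin.val_last] at this
      omega
    rw [e1] at this
    simp only [zero_mul, zero_add, ev, map_pow, MvPolynomial.eval_X, Matrix.one_apply_eq, one_pow,
      mul_one] at this
    exact sub_eq_zero.1 this
  have r3' : ∀ j : Fin (p + 1), X j j = ((p - j.val : ℕ) : k) * X ⟨p - 1, by omega⟩ ⟨p - 1, by omega⟩ :=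
    fun j => by
    have := h _ (Or.inr (Or.inr (Or.inl ⟨j, j, le_rfl, rfl⟩)))
    rw [dd_sub, dd_X, dd_mul, dd_pow, dd_X, dd_X] at this
    have e2 : (⟨p - (j.val - j.val), by omega⟩ : Fin (p + 1)) = Fin.last p := by
      apply Fin.ext; simp
    rw [e2, r2] at this
    simp only [zero_mul, add_zero, ev, MvPolynomial.eval_X, Matrix.one_apply_eq, one_pow,
      mul_one, one_mul] at this
    exact sub_eq_zero.1 this
  have r4 : ∀ m : ℕ, 2 ≤ m → ∀ hm : m < p, X ⟨p - m, by omega⟩ (Fin.last p) = 0 := fun m hm2 hm => by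
    have := h _ (Or.inr (Or.inr (Or.inr ⟨m, hm, rfl⟩)))
    rw [dd_sub, dd_mul, dd_pow, dd_X, dd_C, dd_X] at this
    have e1 : ev (1 : Matrix (Fin (p + 1)) (Fin (p + 1)) k)
        (MvPolynomial.X (⟨p - 1, by omega⟩, Fin.last p)) = 0 := by
      simp only [ev, MvPolynomial.eval_X]
      rw [Matrix.one_apply_ne]
      intro he
      have := congrArg Fin.val he
      simp only [Fin.val_last] at this
      omega
    rw [e1, zero_pow (by omega)] at this
    simp only [zero_mul, mul_zero, add_zero, sub_zero, ev, MvPolynomial.eval_C] at this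
    exact (mul_eq_zero.1 this).resolve_left (fact_ne hp hm)
  refine ⟨X ⟨p - 1, by omega⟩ ⟨p - 1, by omega⟩, X ⟨p - 1, by omega⟩ (Fin.last p), X 0 (Fin.last p), ?_⟩
  ext i j
  simp only [L, Matrix.of_apply]
  have hi := i.isLt
  have hj := j.isLt
  split_ifs with h1 h2 h3
  · obtain rfl : i = j := Fin.ext h1
    exact r3' i
  · rw [r3 i j (by omega)]
    congr 1
    exact Fin.ext (by simp only []; omega)
  · rw [r3 i j (by omega)]
    congr 1
    exact Fin.ext (by simp only [Fin.val_zero]; omega)
  · rcases lt_or_ge j.val i.val with h4 | h4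
    · exact r1 i j h4
    · rw [r3 i j (by omega)]
      exact r4 (j.val - i.val) (by omega) (by omega)

lemma mem_lower [CharP k p] [Infinite k] (hp : p.Prime) (x y c : k) :
    L p x y c ∈ lieAlg (S (k := k) hp) := by
  have hp1 := hp.one_lt
  intro f hf
  set cf : ℕ → Polynomial k := fun m => if m < p then
    Polynomial.C ((m.factorial : k)⁻¹ * y ^ m) * Polynomial.X ^ m else
      Polynomial.C c * Polynomial.X with hcf
  set C : Fin (p + 1) × Fin (p + 1) → Polynomial k := fun ij =>
    if ij.1.val ≤ ij.2.val then cf (ij.2.val - ij.1.val) *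
      (1 + Polynomial.C x * Polynomial.X) ^ (p - ij.2.val) else 0 with hC
  have h := tangent C f (1 + Polynomial.C x * Polynomial.X) (by
    intro h0
    have := congrArg (Polynomial.eval 0) h0
    simp at this) (fun s hs => by
    have hs' : 1 + x * s ≠ 0 := by simpa using hs
    have hgood : Good p (T p (1 + x * s) (PowerSeries.mk fun m => (cf m).eval s)) := by
      refine ⟨_, _, y * s, hs', ?_, rfl⟩
      intro m hm
      rw [PowerSeries.coeff_mk]
      simp only [hcf, if_pos hm, Polynomial.eval_mul, Polynomial.eval_C, Polynomial.eval_pow,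
        Polynomial.eval_X]
      rw [← mul_assoc, mul_inv_cancel_left₀ (fact_ne hp hm), mul_pow]
    -- the matrix is invertible
    obtain ⟨t, A, a, ht, hA, hTA⟩ := hgood
    have hmem : ∃ g : Matrix.GeneralLinearGroup (Fin (p + 1)) k,
        (g : Matrix (Fin (p + 1)) (Fin (p + 1)) k) = T p t A := by
      obtain ⟨h1, h2⟩ := hA.inv hp
      have h3 : T p t A * T p t⁻¹ (PowerSeries.rescale t⁻¹ A⁻¹) = 1 := by
        rw [T_mul, PowerSeries.rescale_rescale, inv_mul_cancel₀ ht, mul_inv_cancel₀ ht,
          PowerSeries.rescale_one, RingHom.id_apply, h2, T_one]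
      exact ⟨⟨T p t A, _, h3, mul_eq_one_comm.1 h3⟩, rfl⟩
    obtain ⟨g, hg⟩ := hmem
    have h4 := hf g ⟨t, A, a, ht, hA, hg⟩
    rw [hg, ← hTA] at h4
    rw [← h4]
    unfold ev
    congr 2
    funext ij
    simp only [hC, T, Matrix.of_apply, PowerSeries.coeff_mk]
    split_ifs <;> simp)
  have e1 : (fun i => (C i).eval 0) =
      (fun ij' : Fin (p + 1) × Fin (p + 1) =>
        (1 : Matrix (Fin (p + 1)) (Fin (p + 1)) k) ij'.1 ij'.2) := by
    funext ij
    obtain ⟨i, j⟩ := ij
    simp only [hC, hcf]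
    have hi := i.isLt
    have hj := j.isLt
    rcases lt_trichotomy i.val j.val with h1 | h1 | h1
    · rw [if_pos h1.le, Matrix.one_apply_ne (fun h => by have h' := congrArg Fin.val h; simp only [] at h'; omega)]
      have h6 : j.val - i.val ≠ 0 := by omega
      split_ifs with h2
      · simp [h6]
      · simp
    · obtain rfl : i = j := Fin.ext h1
      rw [if_pos h1.le, Matrix.one_apply_eq, Nat.sub_self, if_pos hp.pos]
      simp
    · rw [if_neg (by omega), Matrix.one_apply_ne (fun h => by have h' := congrArg Fin.val h; simp only [] at h'; omega)]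
      simp
  rw [e1] at h
  refine Eq.trans ?_ h
  unfold dirDeriv ev
  refine Finset.sum_congr rfl fun ij _ => ?_
  congr 1
  obtain ⟨i, j⟩ := ij
  simp only [hC, hcf, L, Matrix.of_apply]
  have hi := i.isLt
  have hj := j.isLt
  by_cases h1 : i.val = j.val
  · rw [if_pos h1, if_pos h1.le, h1, Nat.sub_self, if_pos hp.pos]
    simp [Polynomial.derivative_pow]
  rw [if_neg h1]
  by_cases h2 : i.val + 1 = j.val
  · rw [if_pos h2, if_pos (by omega), show j.val - i.val = 1 by omega, if_pos hp1]
    simp
  rw [if_neg h2]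
  by_cases h3 : i.val + p = j.val
  · rw [if_pos h3, if_pos (by omega), show j.val - i.val = p by omega, if_neg (lt_irrefl _)]
    simp
  rw [if_neg h3]
  by_cases h4 : i.val ≤ j.val
  · rw [if_pos h4, if_pos (by omega)]
    have h5 : j.val - i.val - 1 ≠ 0 := by omega
    have h6 : j.val - i.val ≠ 0 := by omega
    simp [h5, h6, Polynomial.derivative_X_pow]
  · rw [if_neg h4]
    simp

/-! ### Products -/

lemma L_apply_eq (x y c : k) (i : Fin (p + 1)) : L p x y c i i = ((p - i.val : ℕ) : k) * x := by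
  simp [L]

lemma L_super (x y c : k) {i j : Fin (p + 1)} (h : i.val + 1 = j.val) : L p x y c i j = y := by
  simp only [L, Matrix.of_apply]
  rw [if_neg (by omega), if_pos h]

lemma L_corner (hp1 : 1 < p) (x y c : k) {i j : Fin (p + 1)} (h : i.val + p = j.val) :
    L p x y c i j = c := by
  simp only [L, Matrix.of_apply]
  rw [if_neg (by omega), if_neg (by omega), if_pos h]

lemma L_else (x y c : k) {i j : Fin (p + 1)} (h1 : i.val ≠ j.val) (h2 : i.val + 1 ≠ j.val)
    (h3 : i.val + p ≠ j.val) : L p x y c i j = 0 := by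
  simp only [L, Matrix.of_apply]
  rw [if_neg h1, if_neg h2, if_neg h3]

lemma L_zero_zero [CharP k p] (x y c : k) : L p x y c 0 0 = 0 := by
  rw [L_apply_eq]; simp

lemma L_mul_apply [CharP k p] (hp : p.Prime) (x y c : k) (Y : Matrix (Fin (p + 1)) (Fin (p + 1)) k)
    (j : Fin (p + 1)) : (L p x y c * Y) 0 j =
      y * Y ⟨1, by have := hp.one_lt; omega⟩ j + c * Y (Fin.last p) j := by
  have hp1 := hp.one_lt
  have v0 : (0 : Fin (p + 1)).val = 0 := rfl
  have vl : (Fin.last p).val = p := rfl
  rw [Matrix.mul_apply, ← Finset.sum_subset (Finset.subset_univ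
    {⟨1, by omega⟩, Fin.last p}), Finset.sum_pair]
  · rw [L_super x y c (i := 0) (j := ⟨1, by omega⟩) (by rw [v0]), L_corner hp1 x y c (by omega)]
  · intro h
    have := congrArg Fin.val h
    simp at this
    omega
  · intro l _ hl
    simp only [Finset.mem_insert, Finset.mem_singleton, not_or, Fin.ext_iff, Fin.val_last] at hl
    rcases Nat.eq_zero_or_pos l.val with h0 | h0
    · have : l = 0 := Fin.ext (by simpa using h0)
      rw [this, L_zero_zero, zero_mul]
    · rw [L_else x y c (by omega) (by omega) (by omega), zero_mul]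

lemma L_zero_last [CharP k p] (hp : p.Prime) (x y c : k) : L p x y c 0 (Fin.last p) = c := by
  have v0 : (0 : Fin (p + 1)).val = 0 := rfl
  have vl : (Fin.last p).val = p := rfl
  exact L_corner hp.one_lt x y c (by omega)

lemma L_zero_one [CharP k p] (hp : p.Prime) (x y c : k) :
    L p x y c 0 ⟨1, by have := hp.one_lt; omega⟩ = y := by
  exact L_super x y c rfl

/-- The corner entries of commutators vanish. -/
lemma comm_last [CharP k p] (hp : p.Prime) (x y c x' y' c' : k) :
    (L p x y c * L p x' y' c' - L p x' y' c' * L p x y c) 0 (Fin.last p) = 0 := by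
  have hp1 := hp.one_lt
  have vl : (Fin.last p).val = p := rfl
  rw [Matrix.sub_apply, L_mul_apply hp, L_mul_apply hp]
  have h1 : ∀ x y c : k, L p x y c (Fin.last p) (Fin.last p) = 0 := fun x y c => by
    rw [L_apply_eq]; simp
  have h2 : ∀ x y c : k, L p x y c ⟨1, by omega⟩ (Fin.last p) = if p = 2 then y else 0 := by
    intro x y c
    by_cases h : p = 2
    · rw [if_pos h, L_super x y c]
      show 1 + 1 = (Fin.last p).val
      omega
    · rw [if_neg h, L_else x y c] <;> show _ ≠ (Fin.last p).val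
      · show 1 ≠ _; omega
      · show 1 + 1 ≠ _; omega
      · show 1 + p ≠ _; omega
  rw [h1, h1, h2, h2]
  split_ifs <;> ring

lemma comm_one [CharP k p] (hp : p.Prime) (x y c x' y' c' : k) :
    (L p x y c * L p x' y' c' - L p x' y' c' * L p x y c) 0 ⟨1, by have := hp.one_lt; omega⟩ =
      x * y' - x' * y := by
  have hp1 := hp.one_lt
  have vl : (Fin.last p).val = p := rfl
  rw [Matrix.sub_apply, L_mul_apply hp, L_mul_apply hp]
  have h1 : ∀ x y c : k, L p x y c (Fin.last p) ⟨1, by omega⟩ = 0 := fun x y c => by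
    rw [L_else x y c]
    · show p ≠ 1; omega
    · show p + 1 ≠ 1; omega
    · show p + p ≠ 1; omega
  have h2 : ∀ x y c : k, L p x y c ⟨1, by omega⟩ ⟨1, by omega⟩ = -x := fun x y c => by
    rw [L_apply_eq]
    simp only [Nat.cast_sub hp1.le, CharP.cast_eq_zero, Nat.cast_one]
    ring
  rw [h1, h1, h2, h2]
  ring

/-- Powers of the general element without a corner entry. -/
lemma pow_entry (x y : k) (m : ℕ) : ∀ i j : Fin (p + 1),
    (i.val + m < j.val → (L p x y 0 ^ m) i j = 0) ∧
      (i.val + m = j.val → (L p x y 0 ^ m) i j = y ^ m) := by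
  induction m with
  | zero =>
    intro i j
    refine ⟨fun h => ?_, fun h => ?_⟩
    · rw [pow_zero, Matrix.one_apply_ne (fun h' => by rw [h'] at h; omega)]
    · rw [pow_zero, pow_zero, show i = j from Fin.ext (by omega), Matrix.one_apply_eq]
  | succ m ih =>
    intro i j
    have hL : ∀ l : Fin (p + 1), l.val ≠ j.val → l.val + 1 ≠ j.val → L p x y 0 l j = 0 := by
      intro l h1 h2
      simp only [L, Matrix.of_apply]
      rw [if_neg h1, if_neg h2]
      split_ifs <;> rfl
    have hj := j.isLt
    refine ⟨fun h => ?_, fun h => ?_⟩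
    · rw [pow_succ, Matrix.mul_apply]
      refine Finset.sum_eq_zero fun l _ => ?_
      by_cases h1 : l.val = j.val
      · rw [(ih i l).1 (by omega), zero_mul]
      · by_cases h2 : l.val + 1 = j.val
        · rw [(ih i l).1 (by omega), zero_mul]
        · rw [hL l h1 h2, mul_zero]
    · rw [pow_succ, Matrix.mul_apply, Finset.sum_eq_single ⟨i.val + m, by omega⟩]
      · rw [(ih i _).2 rfl, pow_succ, L_super x y 0]
        show i.val + m + 1 = _
        omega
      · intro l _ hl
        have hl' : l.val ≠ i.val + m := fun h' => hl (Fin.ext h')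
        by_cases h1 : l.val = j.val
        · rw [(ih i l).1 (by omega), zero_mul]
        · rw [hL l h1 (by omega), mul_zero]
      · simp

/-- The corner entry does not matter for powers. -/
lemma pow_corner [CharP k p] (hp : p.Prime) (x y c : k) (m : ℕ) :
    L p x y c ^ (m + 2) = L p x y 0 ^ (m + 2) := by
  have hp1 := hp.one_lt
  have v0 : (0 : Fin (p + 1)).val = 0 := rfl
  have vl : (Fin.last p).val = p := rfl
  have hadd : L p x y c = L p x y 0 + L p 0 0 c := by
    ext i j
    simp only [L, Matrix.of_apply, Matrix.add_apply]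
    split_ifs <;> first | omega | simp
  have hW : ∀ i j : Fin (p + 1), ¬ (i = 0 ∧ j = Fin.last p) → L p 0 0 c i j = 0 := by
    intro i j hij
    simp only [L, Matrix.of_apply]
    have hj := j.isLt
    split_ifs with h1 h2 h3
    · simp
    · rfl
    · exact absurd ⟨Fin.ext (by omega), Fin.ext (by omega)⟩ hij
    · rfl
  have h1 : ∀ x y c' : k, L p x y c' * L p 0 0 c = 0 := by
    intro x y c'
    ext i j
    rw [Matrix.mul_apply]
    refine Finset.sum_eq_zero fun l _ => ?_
    by_cases h : l = 0 ∧ j = Fin.last p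
    · rw [h.1]
      have h2 : L p x y c' i 0 = 0 := by
        by_cases hi : i = 0
        · rw [hi, L_zero_zero]
        · have : i.val ≠ 0 := fun h => hi (Fin.ext (by simpa using h))
          exact L_else x y c' (by omega) (by omega) (by omega)
      rw [h2, zero_mul]
    · rw [hW l j h, mul_zero]
  have h2 : ∀ x y c' : k, L p 0 0 c * L p x y c' = 0 := by
    intro x y c'
    ext i j
    rw [Matrix.mul_apply]
    refine Finset.sum_eq_zero fun l _ => ?_
    by_cases h : i = 0 ∧ l = Fin.last p
    · rw [h.2]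
      have h2 : L p x y c' (Fin.last p) j = 0 := by
        by_cases hj : j = Fin.last p
        · rw [hj, L_apply_eq]; simp
        · have : j.val ≠ p := fun h => hj (Fin.ext (by simpa using h))
          have := j.isLt
          exact L_else x y c' (by omega) (by omega) (by omega)
      rw [h2, mul_zero]
    · rw [hW i l h, zero_mul]
  have h3 : L p x y c ^ 2 = L p x y 0 ^ 2 := by
    rw [pow_two, pow_two]
    conv_lhs => rw [hadd]
    rw [mul_add, add_mul, add_mul, h1, h2, h1, add_zero, add_zero, add_zero]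
  induction m with
  | zero => exact h3
  | succ m ih =>
    rw [show m + 1 + 2 = (m + 2) + 1 by ring, pow_succ, ih, pow_succ _ (m + 2)]
    conv_lhs => rw [hadd]
    rw [mul_add, pow_succ _ (m + 1), mul_assoc _ _ (L p 0 0 c), h1, mul_zero, add_zero]

lemma pow_last [CharP k p] (hp : p.Prime) (x y c : k) : (L p x y c ^ p) 0 (Fin.last p) = y ^ p := by
  have hp1 := hp.one_lt
  obtain ⟨m, hm⟩ : ∃ m, p = m + 2 := ⟨p - 2, by omega⟩
  have h1 : L p x y c ^ p = L p x y 0 ^ p := by
    conv_lhs => rw [show L p x y c ^ p = L p x y c ^ (m + 2) by rw [← hm]]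
    rw [pow_corner hp, ← hm]
  rw [h1]
  refine (pow_entry x y p 0 (Fin.last p)).2 ?_
  show 0 + p = p
  omega

/-! ### The module -/

/-- The value of a matrix at the place `(i, j)`. -/
noncomputable def entry (i j : Fin (p + 1)) : Matrix (Fin (p + 1)) (Fin (p + 1)) k →ₗ[k] k where
  toFun X := X i j
  map_add' _ _ := rfl
  map_smul' _ _ := rfl

noncomputable def rho : Matrix (Fin (p + 1)) (Fin (p + 1)) k →ₗ[k] Module.End k k :=
  (entry 0 (Fin.last p)).smulRight (1 : Module.End k k)

noncomputable def chi (hp : p.Prime) : Matrix (Fin (p + 1)) (Fin (p + 1)) k →ₗ[k] k :=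
  entry 0 (Fin.last p) - entry 0 ⟨1, by have := hp.one_lt; omega⟩

lemma rho_apply (X : Matrix (Fin (p + 1)) (Fin (p + 1)) k) (v : k) :
    rho X v = X 0 (Fin.last p) * v := by
  simp only [rho, LinearMap.smulRight_apply, LinearMap.smul_apply, Module.End.one_apply,
    smul_eq_mul]
  rfl

lemma chi_apply (hp : p.Prime) (X : Matrix (Fin (p + 1)) (Fin (p + 1)) k) :
    chi hp X = X 0 (Fin.last p) - X 0 ⟨1, by have := hp.one_lt; omega⟩ := rfl

lemma rho_eq (X : Matrix (Fin (p + 1)) (Fin (p + 1)) k) :
    rho X = X 0 (Fin.last p) • (1 : Module.End k k) := rfl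

variable (k p) in
/-- The Lie algebra as the range of a linear map. -/
def Φ : (k × k × k) →ₗ[k] Matrix (Fin (p + 1)) (Fin (p + 1)) k where
  toFun v := L p v.1 v.2.1 v.2.2
  map_add' u v := by
    ext i j
    simp only [L, Matrix.of_apply, Matrix.add_apply, Prod.fst_add, Prod.snd_add]
    split_ifs <;> ring
  map_smul' a v := by
    ext i j
    simp only [L, Matrix.of_apply, Matrix.smul_apply, Prod.smul_fst, Prod.smul_snd, smul_eq_mul,
      RingHom.id_apply]
    split_ifs <;> ring

lemma Φ_inj [CharP k p] (hp : p.Prime) : Function.Injective (Φ k p) := by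
  have hp1 := hp.one_lt
  rintro ⟨x, y, c⟩ ⟨x', y', c'⟩ h
  have h' : L p x y c = L p x' y' c' := h
  have h1 := congrFun (congrFun h' 0) (Fin.last p)
  rw [L_zero_last hp, L_zero_last hp] at h1
  have h2 := congrFun (congrFun h' 0) ⟨1, by omega⟩
  rw [L_zero_one hp, L_zero_one hp] at h2
  have h3 := congrFun (congrFun h' ⟨p - 1, by omega⟩) ⟨p - 1, by omega⟩
  rw [L_apply_eq, L_apply_eq] at h3
  have h4 : p - (⟨p - 1, by omega⟩ : Fin (p + 1)).val = 1 := by
    show p - (p - 1) = 1
    omega
  rw [h4, Nat.cast_one, one_mul, one_mul] at h3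
  rw [h1, h2, h3]

lemma lieAlg_eq [CharP k p] [Infinite k] (hp : p.Prime) :
    lieAlg (S (k := k) hp) = LinearMap.range (Φ k p) := by
  ext X
  rw [LinearMap.mem_range]
  constructor
  · intro hX
    obtain ⟨x, y, c, rfl⟩ := mem_upper hp hX
    exact ⟨(x, y, c), rfl⟩
  · rintro ⟨v, rfl⟩
    exact mem_lower hp _ _ _

lemma chi_comm [CharP k p] (hp : p.Prime) (x y c x' y' c' : k) :
    chi hp (L p x y c * L p x' y' c' - L p x' y' c' * L p x y c) = x' * y - x * y' := by
  rw [chi_apply, comm_last hp, comm_one hp]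
  ring

lemma centraliser_eq [CharP k p] [Infinite k] (hp : p.Prime) :
    centraliser (S (k := k) hp) (chi hp) =
      LinearMap.range ((Φ k p).comp ((LinearMap.inr k k (k × k)).comp (LinearMap.inr k k k))) := by
  ext X
  rw [LinearMap.mem_range]
  constructor
  · rintro ⟨hX, hY⟩
    obtain ⟨x, y, c, rfl⟩ := mem_upper hp hX
    have h1 := hY _ (mem_lower hp 0 1 0)
    have h2 := hY _ (mem_lower hp 1 0 0)
    rw [chi_comm hp] at h1 h2
    have hx : x = 0 := by linear_combination -h1
    have hy : y = 0 := by linear_combination h2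
    refine ⟨c, ?_⟩
    rw [hx, hy]
    rfl
  · rintro ⟨c, rfl⟩
    refine ⟨mem_lower hp 0 0 c, fun Y hY => ?_⟩
    obtain ⟨x', y', c', rfl⟩ := mem_upper hp hY
    have := chi_comm hp 0 0 c x' y' c'
    rw [mul_zero, zero_mul, sub_zero] at this
    exact this

end group

/-- Let `p` be a prime and let `k` be an algebraically closed field of characteristic `p`. There are
a closed subgroup `S` of `GL (p + 1)` whose Lie algebra has dimension three, a linear form `χ` whose
centraliser in the Lie algebra has dimension one, and a one-dimensional (hence simple) module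
with `p`-character `χ`. So `p ^ ((dim 𝔤 - dim 𝔤^χ) / 2) = p` does not divide the dimension `1` of
this module. -/
theorem result (p : ℕ) (hp : p.Prime) (k : Type) [Field k] [IsAlgClosed k] [CharP k p] :
    ∃ S : Subgroup (Matrix.GeneralLinearGroup (Fin (p + 1)) k), IsClosedSubgroup S ∧
      ∃ (χ : Matrix (Fin (p + 1)) (Fin (p + 1)) k →ₗ[k] k)
        (ρ : Matrix (Fin (p + 1)) (Fin (p + 1)) k →ₗ[k] Module.End k k),
        IsSimpleModule p S χ k ρ ∧
          Module.finrank k (lieAlg S) = 3 ∧ Module.finrank k (centraliser S χ) = 1 ∧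
          ¬ p ^ ((Module.finrank k (lieAlg S) - Module.finrank k (centraliser S χ)) / 2) ∣
            Module.finrank k k := by
  haveI : Infinite k := IsAlgClosed.instInfinite
  have d1 : Module.finrank k (lieAlg (S (k := k) hp)) = 3 := by
    rw [lieAlg_eq, LinearMap.finrank_range_of_inj (Φ_inj hp)]
    simp
  have d2 : Module.finrank k (centraliser (S (k := k) hp) (chi hp)) = 1 := by
    rw [centraliser_eq, LinearMap.finrank_range_of_inj]
    · simp
    · exact (Φ_inj hp).comp (LinearMap.inr_injective.comp LinearMap.inr_injective)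
  refine ⟨S hp, isClosed_S hp, chi hp, rho, ⟨?_, ?_, inferInstance, ?_⟩, d1, d2, ?_⟩
  · intro X hX Y hY
    obtain ⟨x, y, c, rfl⟩ := mem_upper hp hX
    obtain ⟨x', y', c', rfl⟩ := mem_upper hp hY
    rw [rho_eq, rho_eq, rho_eq, comm_last hp, zero_smul, smul_mul_smul_comm, smul_mul_smul_comm,
      mul_comm, sub_self]
  · intro X hX
    obtain ⟨x, y, c, rfl⟩ := mem_upper hp hX
    haveI : Fact p.Prime := ⟨hp⟩
    rw [rho_eq, rho_eq, pow_last hp, smul_pow, one_pow, ← sub_smul, chi_apply, L_zero_last hp,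
      L_zero_one hp, sub_pow_char]
  · intro N _
    exact eq_bot_or_eq_top N
  · rw [d1, d2, Module.finrank_self, Nat.dvd_one]
    norm_num
    exact hp.ne_one

end Pool.Agent.Results.MP_f85ae1_al.AllPrimes
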